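import Pool.Agent.helper60.RF.Defs

set_option autoImplicit false

namespace Pool.Agent.RF

open NumberField
open scoped QuadraticAlgebra

theorem MEX_five (q : ℚ) : q ^ 2 ≠ 5 + 0 * q := by
  intro h
  rw [zero_mul, add_zero] at h
  have h1 : Irrational (√(5 : ℕ)) := Nat.prime_five.irrational_sqrt
  apply h1
  refine ⟨|q|, ?_⟩
  have h2 : ((|q| : ℚ) : ℝ) ^ 2 = ((5 : ℕ) : ℝ) := by
    have : (|q|) ^ 2 = (5 : ℚ) := by rw [sq_abs, h]
    have h3 : (((|q|) ^ 2 : ℚ) : ℝ) = ((5 : ℚ) : ℝ) := by rw [this]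
    push_cast at h3 ⊢
    exact h3
  rw [← h2, Real.sqrt_sq]
  exact_mod_cast abs_nonneg q

/-- `ℚ(√5)` -/
abbrev MEX_E : Type := QuadraticAlgebra ℚ 5 0

instance MEX_f1 : Fact (∀ r : ℚ, r ^ 2 ≠ 5 + 0 * r) := ⟨MEX_five⟩

/-- `√5` -/
def MEX_r : MEX_E := ⟨0, 1⟩

/-- `-√5 φ D` -/
def MEX_c (D : ℤ) : MEX_E := ⟨-(5 * D / 2), -(D / 2)⟩

/-- `2 / (1 + √5)` -/
def MEX_t : MEX_E := ⟨-1 / 2, 1 / 2⟩

theorem MEX_r2 : MEX_r ^ 2 = 5 := by
  unfold MEX_r
  rw [sq]
  ext <;> simp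

theorem MEX_cs (D : ℤ) (hD : D ≠ 0) (x : MEX_E) : x ^ 2 ≠ MEX_c D + 0 * x := by
  intro h
  rw [zero_mul, add_zero] at h
  have h1 := congrArg QuadraticAlgebra.norm h
  rw [map_pow, QuadraticAlgebra.norm_def (MEX_c D)] at h1
  have hD' : (D : ℚ) ≠ 0 := by exact_mod_cast hD
  apply MEX_five (x.norm / D)
  rw [div_pow, h1]
  unfold MEX_c
  field_simp
  ring

theorem MEX_c1 (D : ℤ) : MEX_c D = -(MEX_r * ((1 + MEX_r) / 2) * D) := by
  have h2 : (2 : MEX_E) ≠ 0 := by
    intro h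
    have := congrArg QuadraticAlgebra.re h
    simp at this
  have h3 : MEX_c D * 2 = -(MEX_r * (1 + MEX_r) * D) := by
    unfold MEX_c MEX_r
    ext
    · simp
    · simp
  rw [← eq_div_iff h2] at h3
  rw [h3]
  ring

theorem MEX_t1 : MEX_t = 2 / (1 + MEX_r) := by
  have h2 : (1 + MEX_r) ≠ 0 := by
    intro h
    have := congrArg QuadraticAlgebra.im h
    simp [MEX_r] at this
  rw [eq_div_iff h2]
  unfold MEX_t MEX_r
  ext
  · simp
    norm_num
  · simp
    norm_num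

theorem MEX_ct (D : ℤ) : star (MEX_c D) = MEX_c D * MEX_t ^ 2 := by
  unfold MEX_c MEX_t
  rw [sq]
  ext
  · simp
    ring
  · simp
    ring

theorem MEX_tt : star MEX_t * MEX_t = -1 := by
  unfold MEX_t
  ext
  · simp
    norm_num
  · simp
    norm_num

/-- the mirror field -/
abbrev MEX_F (D : ℤ) : Type := QuadraticAlgebra MEX_E (MEX_c D) 0

/-- the automorphism -/
noncomputable def MEX_s (D : ℤ) : MEX_F D ≃+* MEX_F D where
  toFun z := ⟨star z.re, star z.im * MEX_t⟩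
  invFun z := ⟨star z.re, -(star z.im * MEX_t)⟩
  left_inv z := by
    have h := MEX_tt
    ext1
    · simp only [star_star]
    · simp only [star_mul', star_star]
      rw [mul_assoc, h]
      ring
  right_inv z := by
    have h := MEX_tt
    ext1
    · simp only [star_star]
    · simp only [star_neg, star_mul', star_star]
      rw [neg_mul, mul_assoc, h]
      ring
  map_add' z w := by
    ext1
    · simp only [QuadraticAlgebra.re_add, star_add]
    · simp only [QuadraticAlgebra.im_add, star_add, add_mul]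
  map_mul' z w := by
    ext1
    · simp only [QuadraticAlgebra.re_mul, star_add, star_mul', MEX_ct]
      ring
    · simp only [QuadraticAlgebra.im_mul, star_add, star_mul', star_zero]
      ring

theorem MEX_nf (D : ℤ) [Fact (∀ x : MEX_E, x ^ 2 ≠ MEX_c D + 0 * x)] : NumberField (MEX_F D) ∧ Module.finrank ℚ (MEX_F D) = 4 := by
  have h1 : Module.finrank ℚ MEX_E = 2 := QuadraticAlgebra.finrank_eq_two 5 0
  have h2 : Module.finrank MEX_E (MEX_F D) = 2 := QuadraticAlgebra.finrank_eq_two _ _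
  have h3 : Module.finrank ℚ (MEX_F D) = 4 := by
    rw [← Module.finrank_mul_finrank ℚ MEX_E (MEX_F D), h1, h2]
  have h4 : CharZero (MEX_F D) := charZero_of_injective_algebraMap (algebraMap ℚ (MEX_F D)).injective
  have h5 : FiniteDimensional ℚ (MEX_F D) := Module.Finite.trans MEX_E (MEX_F D)
  exact ⟨⟨⟩, h3⟩

theorem MEX : MEX_stmt := by
  intro D hD1 _ _
  have hD : D ≠ 0 := by omega
  have hF : Fact (∀ x : MEX_E, x ^ 2 ≠ MEX_c D + 0 * x) := ⟨MEX_cs D hD⟩
  obtain ⟨h1, h2⟩ := MEX_nf D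
  refine ⟨MEX_F D, inferInstance, h1, MEX_s D, algebraMap MEX_E (MEX_F D) MEX_r, ⟨0, 1⟩, ?_⟩
  refine ⟨h2, ?_, ?_, ?_, ?_⟩
  · rw [← map_pow, MEX_r2, map_ofNat]
  · have h3 : (⟨0, 1⟩ : MEX_F D) ^ 2 = algebraMap MEX_E (MEX_F D) (MEX_c D) := by
      rw [sq]
      ext1
      · simp
      · simp
    have h4 := congrArg (algebraMap MEX_E (MEX_F D)) (MEX_c1 D)
    rw [h3, h4]
    simp only [map_neg, map_mul, map_div₀, map_add, map_one, map_ofNat, map_intCast]
  · have h3 : star MEX_r = -MEX_r := by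
      unfold MEX_r
      ext
      · simp
      · simp
    rw [← map_neg]
    change (⟨star MEX_r, star (0 : MEX_E) * MEX_t⟩ : MEX_F D) = ⟨-MEX_r, 0⟩
    rw [h3, star_zero, zero_mul]
  · have h3 : (2 / (1 + algebraMap MEX_E (MEX_F D) MEX_r)) = algebraMap MEX_E (MEX_F D) MEX_t := by
      rw [MEX_t1]
      simp only [map_div₀, map_add, map_one, map_ofNat]
    rw [h3]
    change (⟨star (0 : MEX_E), star (1 : MEX_E) * MEX_t⟩ : MEX_F D) = _
    rw [star_zero, star_one, one_mul]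
    ext1
    · simp
    · simp

end Pool.Agent.RF
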