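import Pool.Agent.helper13.RF.Spec1

set_option autoImplicit false

open NumberField
open scoped nonZeroDivisors

namespace Pool.Agent.RF

theorem UNL_top {N M : Type} [Field N] [Field M] [Algebra N M] (α : M) :
    IntermediateField.adjoin N {(⟨α, IntermediateField.mem_adjoin_simple_self N α⟩ : IntermediateField.adjoin N {α})} = ⊤ := by
  apply IntermediateField.lift_injective
  rw [IntermediateField.lift_adjoin_simple, IntermediateField.lift_top]

theorem UNL_fr {N M : Type} [Field N] [Field M] [Algebra N M] (α : M) (b : N) (h : α ^ 5 = algebraMap N M b)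
    (hb : ¬ ∃ g : N, b = g ^ 5) : Module.finrank N (IntermediateField.adjoin N {α}) = 5 := by
  have hirr : Irreducible (Polynomial.X ^ 5 - Polynomial.C b) :=
    X_pow_sub_C_irreducible_of_prime (by norm_num) (fun g hg => hb ⟨g, hg.symm⟩)
  have hmon : (Polynomial.X ^ 5 - Polynomial.C b).Monic := Polynomial.monic_X_pow_sub_C _ (by norm_num)
  have hroot : Polynomial.aeval α (Polynomial.X ^ 5 - Polynomial.C b) = 0 := by
    rw [map_sub, map_pow, Polynomial.aeval_X, Polynomial.aeval_C, h, sub_self]
  have hmin : Polynomial.X ^ 5 - Polynomial.C b = minpoly N α := minpoly.eq_of_irreducible_of_monic hirr hroot hmon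
  have hint : IsIntegral N α := ⟨_, hmon, hroot⟩
  rw [IntermediateField.adjoin.finrank hint, ← hmin, Polynomial.natDegree_X_pow_sub_C]

theorem UNL (hUNA : UNA_stmt) (hUNB : UNB_stmt) (hTOW : TOW_stmt) : UNL_stmt := by
  intro K N M _ _ _ _ _ _ _ _ _ _ ζ α b u I L hζ hgal hfr hα hb hI hu hng hgL hfL had
  have h5 : Module.finrank N (IntermediateField.adjoin N {α}) = 5 := UNL_fr α (b : N) hα hng
  have htop := UNL_top (N := N) α
  have hUnr : Unr N (IntermediateField.adjoin N {α}) := by
    intro P hP hP0
    by_cases h : (5 : 𝓞 (IntermediateField.adjoin N {α})) ∈ P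
    · exact hUNB N (IntermediateField.adjoin N {α}) ζ ⟨α, IntermediateField.mem_adjoin_simple_self N α⟩ b u hζ (Subtype.ext hα) hu h5 htop P hP hP0 h
    · exact hUNA N (IntermediateField.adjoin N {α}) ⟨α, IntermediateField.mem_adjoin_simple_self N α⟩ b I (Subtype.ext hα) hb hI h5 htop P hP hP0 h
  have hsub : ∀ x : L, (x : M) ∈ IntermediateField.adjoin N {α} := by
    intro x
    rw [← had]
    exact IntermediateField.subset_adjoin N _ x.2
  let f : L →+* IntermediateField.adjoin N {α} :=
    { toFun := fun x => ⟨x, hsub x⟩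
      map_one' := rfl
      map_mul' := fun _ _ => rfl
      map_zero' := rfl
      map_add' := fun _ _ => rfl }
  let _ : Algebra L (IntermediateField.adjoin N {α}) := f.toAlgebra
  have t1 : IsScalarTower K L (IntermediateField.adjoin N {α}) := IsScalarTower.of_algebraMap_eq (fun x => Subtype.ext rfl)
  exact hTOW K L N (IntermediateField.adjoin N {α}) hgL hfL hgal hfr hUnr

end Pool.Agent.RF
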