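import Pool.Agent.helper88.RF.SpecW

set_option autoImplicit false

open Finset

namespace Pool.Agent.RF

theorem WUN_s5 : (2.2 : ℝ) < √5 ∧ √5 < (2.24 : ℝ) := by
  constructor
  · rw [Real.lt_sqrt (by norm_num)]
    norm_num
  · rw [Real.sqrt_lt' (by norm_num)]
    norm_num

theorem WUN_key (v : OO) (h1 : 1 ≤ va v) (h2 : va v < (1 + √5) / 2) (h3 : |vb v| ≤ 1) : v = 1 := by
  obtain ⟨s1, s2⟩ := WUN_s5
  obtain ⟨h4, h5⟩ := abs_le.1 h3
  unfold va at h1 h2
  unfold vb at h4 h5
  have a1 : 0 ≤ (v.im : ℝ) * √5 := by linarith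
  have a2 : (v.im : ℝ) * √5 < 2.62 := by linarith
  have a3 : (-1 : ℝ) < v.im := by nlinarith
  have a4 : (v.im : ℝ) < 2 := by nlinarith
  have b3 : (-1 : ℤ) < v.im := by exact_mod_cast a3
  have b4 : v.im < (2 : ℤ) := by exact_mod_cast a4
  have h6 : v.im = 0 ∨ v.im = 1 := by omega
  rcases h6 with h6 | h6
  · rw [h6] at h1 h2
    push_cast at h1 h2
    have c1 : (1 : ℝ) ≤ v.re := by linarith
    have c2 : (v.re : ℝ) < 2 := by linarith
    have d1 : (1 : ℤ) ≤ v.re := by exact_mod_cast c1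
    have d2 : v.re < (2 : ℤ) := by exact_mod_cast c2
    have h7 : v.re = 1 := by omega
    ext
    · rw [h7]
      rfl
    · rw [h6]
      rfl
  · exfalso
    rw [h6] at h1 h2
    push_cast at h1 h2
    have c1 : (v.re : ℝ) < 0 := by linarith
    have d1 : v.re < (0 : ℤ) := by exact_mod_cast c1
    have d2 : v.re ≤ (-1 : ℤ) := by omega
    have d3 : (v.re : ℝ) ≤ -1 := by exact_mod_cast d2
    linarith

theorem WUN_nu (hWVA : WVA_stmt) {u : OO} (hu : IsUnit u) : |va u| * |vb u| = 1 := by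
  obtain ⟨-, -, -, -, -, h6, -⟩ := hWVA
  rw [← abs_mul, h6]
  rw [QuadraticAlgebra.isUnit_iff_norm_isUnit, Int.isUnit_iff] at hu
  rcases hu with h | h
  · rw [h]
    norm_num
  · rw [h]
    norm_num

theorem WUN_inj (hWVA : WVA_stmt) {u w : OO} (hu : IsUnit u) (hw : IsUnit w) (hs : 0 < va u * va w)
    (h1 : |va w| ≤ |va u|) (h2 : |va u| < (1 + √5) / 2 * |va w|) : u = w := by
  have hn : ∀ {v : OO}, IsUnit v → |va v| * |vb v| = 1 := fun h => WUN_nu hWVA h
  have hv := hWVA
  obtain ⟨m1, -⟩ := hv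
  obtain ⟨w', hw'⟩ := hw.exists_left_inv
  have hw'u : IsUnit w' := IsUnit.of_mul_eq_one w hw'
  have e1 : va (u * w') * va w = va u := by
    rw [← m1, mul_assoc, hw', mul_one]
  have hvu : IsUnit (u * w') := hu.mul hw'u
  have hwp : 0 < |va w| := by
    rcases (abs_nonneg (va w)).lt_or_eq with h | h
    · exact h
    · have := hn hw
      rw [← h] at this
      norm_num at this
  have e2 : 0 < va (u * w') := by
    rw [← e1] at hs
    have h3 : 0 < va (u * w') * (va w * va w) := by linarith [mul_assoc (va (u * w')) (va w) (va w)]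
    by_contra hc
    have h4 := mul_nonneg_of_nonpos_of_nonpos (not_lt.1 hc) (neg_nonpos.2 (mul_self_nonneg (va w)))
    linarith [mul_neg (va (u * w')) (va w * va w)]
  have e3 : |va (u * w')| * |va w| = |va u| := by rw [← abs_mul, e1]
  rw [abs_of_pos e2] at e3
  have f1 : 1 ≤ va (u * w') := by
    rw [← e3] at h1
    by_contra hc
    push Not at hc
    nlinarith
  have f2 : va (u * w') < (1 + √5) / 2 := by
    rw [← e3] at h2
    exact lt_of_mul_lt_mul_right h2 hwp.le
  have f3 : |vb (u * w')| ≤ 1 := by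
    have h4 := hn hvu
    rw [abs_of_pos e2] at h4
    have h5 : 0 ≤ |vb (u * w')| := abs_nonneg _
    nlinarith
  have h7 := WUN_key _ f1 f2 f3
  calc u = u * w' * w := by rw [mul_assoc, hw', mul_one]
    _ = w := by rw [h7, one_mul]

theorem WUN_proof (hWVA : WVA_stmt) : WUN_stmt := by
  classical
  obtain ⟨s1, s2⟩ := WUN_s5
  have hn : ∀ {v : OO}, IsUnit v → |va v| * |vb v| = 1 := fun h => WUN_nu hWVA h
  have hL : 0 < Real.log ((1 + √5) / 2) := Real.log_pos (by linarith)
  have hg : 0 < (1 + √5) / 2 := by linarith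
  refine ⟨4 / Real.log ((1 + √5) / 2) + 4, ?_, fun X hX S hS => ?_⟩
  · have : 0 < 4 / Real.log ((1 + √5) / 2) := by positivity
    linarith
  have hpos : ∀ u ∈ S, 0 < |va u| := by
    intro u hu
    rcases (abs_nonneg (va u)).lt_or_eq with h | h
    · exact h
    · have := hn (hS u hu).1
      rw [← h] at this
      norm_num at this
  have hlX : 0 ≤ Real.log X := Real.log_nonneg hX
  have hlog : ∀ u ∈ S, |Real.log (|va u|)| ≤ Real.log X := by
    intro u hu
    have h0 := hpos u hu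
    have h1 := hn (hS u hu).1
    have h2 : 0 < |vb u| := by
      rcases (abs_nonneg (vb u)).lt_or_eq with h | h
      · exact h
      · rw [← h] at h1
        norm_num at h1
    rw [abs_le]
    constructor
    · have h3 : Real.log |vb u| ≤ Real.log X := Real.log_le_log h2 (hS u hu).2.2
      have h4 : Real.log |va u| + Real.log |vb u| = 0 := by
        rw [← Real.log_mul h0.ne' h2.ne', h1, Real.log_one]
      linarith
    · exact Real.log_le_log h0 (hS u hu).2.1
  set L := Real.log ((1 + √5) / 2) with hLdef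
  set F : OO → ℤ × Bool := fun u => (⌊Real.log |va u| / L⌋, decide (0 < va u)) with hF
  have hinj : Set.InjOn F (S : Set OO) := by
    intro u hu w hw huw
    have hu' : u ∈ S := hu
    have hw' : w ∈ S := hw
    have h1 : ⌊Real.log |va u| / L⌋ = ⌊Real.log |va w| / L⌋ := congrArg Prod.fst huw
    have h2 : decide (0 < va u) = decide (0 < va w) := congrArg Prod.snd huw
    have h2' : (0 < va u) ↔ (0 < va w) := by simpa using h2
    have h3 : |Real.log |va u| / L - Real.log |va w| / L| < 1 := Int.abs_sub_lt_one_of_floor_eq_floor h1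
    rw [← sub_div, abs_div, abs_of_pos hL, div_lt_one hL] at h3
    obtain ⟨h4, h5⟩ := abs_lt.1 h3
    have pu := hpos u hu'
    have pw := hpos w hw'
    have hs : 0 < va u * va w := by
      by_cases hc : 0 < va u
      · exact mul_pos hc (h2'.1 hc)
      · have hc' : ¬ 0 < va w := fun h => hc (h2'.2 h)
        have n1 : va u < 0 := lt_of_le_of_ne (not_lt.1 hc) (abs_pos.1 pu)
        have n2 : va w < 0 := lt_of_le_of_ne (not_lt.1 hc') (abs_pos.1 pw)
        exact mul_pos_of_neg_of_neg n1 n2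
    have key : ∀ a b : ℝ, 0 < a → 0 < b → Real.log a - Real.log b < L → a < (1 + √5) / 2 * b := by
      intro a b ha hb hab
      have h6 : Real.log a < Real.log ((1 + √5) / 2 * b) := by
        rw [Real.log_mul hg.ne' hb.ne']
        linarith
      exact (Real.log_lt_log_iff ha (by positivity)).1 h6
    rcases le_total |va w| |va u| with hle | hle
    · exact WUN_inj hWVA (hS u hu').1 (hS w hw').1 hs hle (key _ _ pu pw h5)
    · exact (WUN_inj hWVA (hS w hw').1 (hS u hu').1 (by rwa [mul_comm]) hle (key _ _ pw pu (by linarith))).symm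
  have hmap : ∀ u ∈ S, F u ∈ (Finset.Icc ⌊-(Real.log X) / L⌋ ⌊Real.log X / L⌋) ×ˢ (Finset.univ : Finset Bool) := by
    intro u hu
    obtain ⟨h1, h2⟩ := abs_le.1 (hlog u hu)
    rw [Finset.mem_product]
    refine ⟨Finset.mem_Icc.2 ⟨Int.floor_le_floor ?_, Int.floor_le_floor ?_⟩, Finset.mem_univ _⟩
    · exact div_le_div_of_nonneg_right h1 hL.le
    · exact div_le_div_of_nonneg_right h2 hL.le
  have hcard := Finset.card_le_card_of_injOn F hmap hinj
  rw [Finset.card_product, Int.card_Icc] at hcard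
  have hb : (Finset.univ : Finset Bool).card = 2 := rfl
  rw [hb] at hcard
  have g1 : (S.card : ℝ) ≤ ((⌊Real.log X / L⌋ + 1 - ⌊-(Real.log X) / L⌋).toNat : ℝ) * 2 := by exact_mod_cast hcard
  have g2 : ⌊-(Real.log X) / L⌋ ≤ ⌊Real.log X / L⌋ := by
    apply Int.floor_le_floor
    apply div_le_div_of_nonneg_right _ hL.le
    linarith
  have g3 : (((⌊Real.log X / L⌋ + 1 - ⌊-(Real.log X) / L⌋).toNat : ℤ) : ℝ) = ((⌊Real.log X / L⌋ + 1 - ⌊-(Real.log X) / L⌋ : ℤ) : ℝ) := by
    rw [Int.toNat_of_nonneg (by omega)]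
  have g4 : ((⌊Real.log X / L⌋ + 1 - ⌊-(Real.log X) / L⌋).toNat : ℝ) = (⌊Real.log X / L⌋ : ℝ) + 1 - (⌊-(Real.log X) / L⌋ : ℝ) := by
    have : (((⌊Real.log X / L⌋ + 1 - ⌊-(Real.log X) / L⌋).toNat : ℤ) : ℝ) = ((⌊Real.log X / L⌋ + 1 - ⌊-(Real.log X) / L⌋).toNat : ℝ) := by
      push_cast
      rfl
    rw [← this, g3]
    push_cast
    ring
  rw [g4] at g1
  have g5 : (⌊Real.log X / L⌋ : ℝ) ≤ Real.log X / L := Int.floor_le _
  have g6 : -(Real.log X) / L - 1 < (⌊-(Real.log X) / L⌋ : ℝ) := Int.sub_one_lt_floor _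
  have g7 : -(Real.log X) / L = -(Real.log X / L) := by ring
  rw [g7] at g6
  have g8 : (S.card : ℝ) ≤ 4 * (Real.log X / L) + 4 := by
    rw [g7] at g1
    linarith
  have g9 : (4 / L + 4) * (1 + Real.log X) = 4 / L + 4 + 4 * (Real.log X / L) + 4 * Real.log X := by ring
  rw [g9]
  have g10 : 0 < 4 / L := by positivity
  linarith

end Pool.Agent.RF
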